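import Pool.Agent.Helper30.LK.St

/-!
# Project LK, module ODD: odd values of the sum of divisors
-/

set_option autoImplicit false

noncomputable section

namespace Pool.Agent.Helper80.LK

open Pool.Agent.Helper30.LK
open Finset ArithmeticFunction Filter

private lemma evn (p e : ℕ) (hp : p.Prime) (hpo : Odd p) (he : Odd e) :
    Even (sigma 1 (p ^ e)) := by
  rw [sigma_one_apply_prime_pow hp, ← ZMod.natCast_eq_zero_iff_even]
  have h1 : (p : ZMod 2) = 1 := by
    rw [ZMod.natCast_eq_one_iff_odd]
    exact hpo
  push_cast
  simp only [h1, one_pow, sum_const, card_range, nsmul_eq_mul, mul_one]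
  rw [ZMod.natCast_eq_zero_iff_even]
  exact he.add_one

/-- Module ODD. -/
theorem hODD : StODD := by
  intro k hk hodd
  obtain ⟨a, b, hab, ha⟩ := Nat.sq_mul_squarefree k
  have hb : b ≠ 0 := by
    rintro rfl
    rw [zero_pow two_ne_zero, zero_mul] at hab
    omega
  have key : ∀ p ∈ a.primeFactors, p = 2 := by
    intro p hp
    have hpp := Nat.prime_of_mem_primeFactors hp
    have hpa := Nat.dvd_of_mem_primeFactors hp
    by_contra h2
    have hpo : Odd p := hpp.odd_of_ne_two h2
    have he : Odd (k.factorization p) := by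
      rw [← hab, Nat.factorization_mul (pow_ne_zero 2 hb) ha.ne_zero, Nat.factorization_pow]
      have h1 : a.factorization p = 1 := Nat.factorization_eq_one_of_squarefree ha hpp hpa
      simp only [Finsupp.coe_add, Finsupp.coe_smul, Pi.add_apply, Pi.smul_apply, smul_eq_mul, h1]
      exact ⟨_, rfl⟩
    have h3 : sigma 1 k = sigma 1 (p ^ k.factorization p) * sigma 1 (k / p ^ k.factorization p) := by
      rw [← isMultiplicative_sigma.map_mul_of_coprime
        (Nat.Coprime.pow_left _ (Nat.coprime_ordCompl hpp (by omega))),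
        Nat.ordProj_mul_ordCompl_eq_self]
    have h4 := evn p _ hpp hpo he
    rw [h3] at hodd
    exact (Nat.not_even_iff_odd.2 hodd) (h4.mul_right _)
  have hsub : a.primeFactors ⊆ {2} := fun p hp => mem_singleton.2 (key p hp)
  have hprod := Nat.prod_primeFactors_of_squarefree ha
  refine ⟨b, Nat.one_le_iff_ne_zero.2 hb, ?_⟩
  rcases Finset.subset_singleton_iff.1 hsub with h | h
  · left
    rw [h, prod_empty] at hprod
    rw [← hab, ← hprod, mul_one]
  · right
    rw [h, prod_singleton] at hprod
    rw [← hab, ← hprod, mul_comm]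

end Pool.Agent.Helper80.LK
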